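import Pool.Agent.W845.TR.Base
import Pool.Agent.W845.TR.Stmts

/-!
# Shifting a contour
-/

set_option autoImplicit false

namespace Pool.Agent.W19.TRShift

open Pool.Agent.W845.TR

variable {d : ℕ}

theorem mem_eb {W : Finset (S d)} {x : S d} {j : Fin d} :
    (x, j) ∈ eb W ↔ ¬ (x ∈ W ↔ x + ue j ∈ W) := by
  unfold eb
  simp only [Finset.mem_filter, Finset.mem_product, Finset.mem_union, Finset.mem_biUnion,
    Finset.mem_univ, and_true, mem_nb]
  constructor
  · exact fun h => h.2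
  · intro h
    refine ⟨?_, h⟩
    by_cases hx : x ∈ W
    · exact Or.inl hx
    · right
      have : x + ue j ∈ W := by
        by_contra hc
        exact h ⟨fun a => absurd a hx, fun a => absurd a hc⟩
      exact ⟨_, this, adj_symm (adj_add_ue x j)⟩

theorem ray_aux {Wc : Finset (S d)} {x : S d} (j : Fin d) (s : ℤ) (hs : s ≠ 0)
    (hx : x ∈ Wc) : ∃ t : ℕ, x + ((t : ℤ) * s) • ue j ∈ Wc ∧
      x + (((t : ℤ) + 1) * s) • ue j ∉ Wc := by
  by_contra hc
  push Not at hc
  have h : ∀ t : ℕ, x + ((t : ℤ) * s) • ue j ∈ Wc := by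
    intro t
    induction t with
    | zero => simpa using hx
    | succ t ih =>
      have := hc t ih
      push_cast
      exact this
  have hinj : Function.Injective (fun t : ℕ => x + ((t : ℤ) * s) • (ue j : S d)) := by
    intro a b hab
    have h1 := congrFun hab j
    simp [ue] at h1
    rcases h1 with h1 | h1
    · exact h1
    · exact absurd h1 hs
  exact Set.infinite_range_of_injective hinj (Wc.finite_toSet.subset (by
    rintro y ⟨t, rfl⟩
    exact h t))

theorem adj_sub_right {x y : S d} {j : Fin d} (h : adj x (y + ue j)) : adj (x - ue j) y := by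
  rw [adj_iff] at h ⊢
  rw [← h, ← l1_add (x - ue j) y (ue j)]
  simp

theorem adj_add_right {x y : S d} {j : Fin d} (h : adj (x + ue j) (y + ue j)) : adj x y := by
  rw [adj_iff] at h ⊢
  rw [← h, l1_add]

theorem shift : St_CUT → St_SHIFT := by
  classical
  intro hcut d hd Lam hRay A v hvL hvA ⟨I, hI, hvI⟩
  set b := par v with hb
  have hIH := hI.1
  have hInd := hI.2.1
  set D : Finset (S d) := I.filter (fun y => par y ≠ b) with hD
  set R0 : Finset (S d) := D ∪ D.biUnion nb with hR0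
  have mD : ∀ y, y ∈ D ↔ y ∈ I ∧ par y ≠ b := by
    intro y; rw [hD, Finset.mem_filter]
  have mR0 : ∀ y, y ∈ R0 ↔ y ∈ D ∨ ∃ u ∈ D, adj u y := by
    intro y
    simp only [hR0, Finset.mem_union, Finset.mem_biUnion, mem_nb]
  have hR0L : R0 ⊆ Lam := by
    intro y hy
    rcases (mR0 y).1 hy with h | ⟨u, hu, h⟩
    · exact (mem_bd.1 (hIH ((mD y).1 h).1)).1
    · have h1 := (mem_bd.1 (hIH ((mD u).1 hu).1)).2.1
      rcases h1 with h1 | h1
      · exact absurd h1 ((mD u).1 hu).2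
      · exact h1 (mem_nb.2 h)
  have hparadj : ∀ x y : S d, adj x y → (par x = b ↔ par y ≠ b) := by
    intro x y h
    rw [par_adj h]
    cases par x <;> cases b <;> simp
  have hvH : v ∈ bd Lam b ((A : Set (S d))ᶜ) :=
    mem_bd.2 ⟨hvL, Or.inl rfl, by simpa using hvA⟩
  have hvR0 : v ∈ R0 := by
    by_contra hc
    have h1 : ∀ y ∈ I, ¬ adj v y := by
      intro y hy hvy
      apply hc
      have h2 : par y ≠ b := (hparadj v y hvy).1 rfl
      exact (mR0 v).2 (Or.inr ⟨y, (mD y).2 ⟨hy, h2⟩, adj_symm hvy⟩)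
    have h3 : Indep (insert v I) := by
      intro x hx y hy hxy
      rcases Finset.mem_insert.1 hx with ex | hx'
      · rcases Finset.mem_insert.1 hy with ey | hy'
        · exact adj_ne hxy (ex.trans ey.symm)
        · exact h1 y hy' (ex ▸ hxy)
      · rcases Finset.mem_insert.1 hy with ey | hy'
        · exact h1 x hx' (adj_symm (ey ▸ hxy))
        · exact hInd x hx' y hy' hxy
    have h4 := indep_card_le (Finset.insert_subset hvH hIH) h3
    rw [Finset.card_insert_of_notMem hvI, hI.2.2] at h4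
    omega
  set rel0 : S d → S d → Prop := fun a b => a ∈ R0 ∧ b ∈ R0 ∧ adj a b with hrel0
  set R : Finset (S d) := R0.filter (fun x => Relation.ReflTransGen rel0 v x) with hR
  have mR : ∀ x, x ∈ R ↔ x ∈ R0 ∧ Relation.ReflTransGen rel0 v x := by
    intro x; rw [hR, Finset.mem_filter]
  have hvR : v ∈ R := (mR v).2 ⟨hvR0, Relation.ReflTransGen.refl⟩
  have hstep : ∀ x y, x ∈ R → y ∈ R0 → adj x y → y ∈ R := by
    intro x y hx hy hxy
    have h1 := (mR x).1 hx
    exact (mR y).2 ⟨hy, h1.2.tail ⟨h1.1, hy, hxy⟩⟩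
  have hchain : ∀ x, Relation.ReflTransGen rel0 v x →
      Relation.ReflTransGen (fun a b => a ∈ R ∧ b ∈ R ∧ adj a b) v x := by
    intro x hx
    induction hx with
    | refl => exact Relation.ReflTransGen.refl
    | tail h1 h2 ih =>
      have h3 := (mR _).2 ⟨h2.1, h1⟩
      exact ih.tail ⟨h3, hstep _ _ h3 h2.2.1 h2.2.2, h2.2.2⟩
  obtain ⟨Wc, hRW, hebW, hconn⟩ := hcut d hd R v hvR (fun x hx => hchain x ((mR x).1 hx).2)
  -- F1, F2, F3
  have F1 : ∀ x ∈ R, par x ≠ b → x ∈ D ∧ ∀ z, adj x z → z ∈ R := by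
    intro x hx hp
    have hxD : x ∈ D := by
      rcases (mR0 x).1 ((mR x).1 hx).1 with h | ⟨u, hu, h⟩
      · exact h
      · exact absurd ((hparadj x u (adj_symm h)).2 ((mD u).1 hu).2) hp
    exact ⟨hxD, fun z hz => hstep x z hx ((mR0 z).2 (Or.inr ⟨x, hxD, hz⟩)) hz⟩
  have F2 : ∀ x ∈ R, par x = b → x ∉ I := by
    intro x hx hp hxI
    rcases (mR0 x).1 ((mR x).1 hx).1 with h | ⟨u, hu, h⟩
    · exact ((mD x).1 h).2 hp
    · exact hInd u ((mD u).1 hu).1 x hxI h
  have F3 : ∀ x z, x ∈ Wc → z ∉ Wc → adj x z → x ∈ R ∧ par x = b ∧ x ∉ I ∧ z ∉ I := by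
    intro x z hx hz hxz
    have hzR : z ∉ R := fun h => hz (hRW h)
    have hxR : x ∈ R := by
      obtain ⟨j, rfl | rfl⟩ := adj_cases hxz
      · have h1 : (x, j) ∈ eb Wc := mem_eb.2 (fun h => hz (h.1 hx))
        have h2 := mem_eb.1 (hebW h1)
        by_contra hc
        exact h2 ⟨fun a => absurd a hc, fun a => absurd a hzR⟩
      · have h1 : (x - ue j, j) ∈ eb Wc :=
          mem_eb.2 (fun h => hz (h.2 (by simpa using hx)))
        have h2 := mem_eb.1 (hebW h1)
        rw [sub_add_cancel] at h2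
        by_contra hc
        exact h2 ⟨fun a => absurd a hzR, fun a => absurd a hc⟩
    have hpx : par x = b := by
      by_contra hc
      exact hzR ((F1 x hxR hc).2 z hxz)
    refine ⟨hxR, hpx, F2 x hxR hpx, ?_⟩
    intro hzI
    have h3 : par z ≠ b := (hparadj x z hxz).1 hpx
    have h4 : z ∈ D := (mD z).2 ⟨hzI, h3⟩
    exact hzR (hstep x z hxR ((mR0 z).2 (Or.inl h4)) hxz)
  have F4 : Wc ⊆ Lam := by
    intro x hx
    by_contra hxL
    obtain ⟨j, h | h⟩ := hRay x hxL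
    · obtain ⟨t, h1, h2⟩ := ray_aux j 1 one_ne_zero hx
      rw [mul_one] at h1 h2
      have h3 : x + (((t : ℤ) + 1)) • ue j = x + (t : ℤ) • ue j + ue j := by
        rw [add_smul, one_smul, add_assoc]
      rw [h3] at h2
      have h4 := F3 _ _ h1 h2 (adj_add_ue _ j)
      exact h t (hR0L ((mR _).1 h4.1).1)
    · obtain ⟨t, h1, h2⟩ := ray_aux j (-1) (by norm_num) hx
      have e1 : x + ((t : ℤ) * (-1)) • ue j = x - (t : ℤ) • ue j := by
        rw [mul_neg_one, neg_smul, sub_eq_add_neg]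
      have e2 : x + (((t : ℤ) + 1) * (-1)) • ue j = x - (t : ℤ) • ue j - ue j := by
        rw [mul_neg_one, neg_smul, add_smul, one_smul]
        abel
      rw [e1] at h1
      rw [e2] at h2
      have h4 := F3 _ _ h1 h2 (adj_sub_ue _ j)
      exact h t (hR0L ((mR _).1 h4.1).1)
  refine ⟨Wc, hRW hvR, F4, hconn, ?_⟩
  intro j π hπ
  obtain ⟨hπ1, hπ2, hπ3⟩ := hπ
  have mrt : ∀ y, y ∈ rt Wc j ↔ y ∈ Wc ∧ y + ue j ∉ Wc := by
    intro y; unfold rt; rw [Finset.mem_filter]
  have hrt : ∀ y ∈ rt Wc j, y ∉ I := fun y hy =>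
    (F3 y _ ((mrt y).1 hy).1 ((mrt y).1 hy).2 (adj_add_ue y j)).2.2.1
  have hIW : ∀ y ∈ I ∩ Wc, y + ue j ∈ Wc ∧ π y = y + ue j := by
    intro y hy
    obtain ⟨hy1, hy2⟩ := Finset.mem_inter.1 hy
    have h1 : y + ue j ∈ Wc := by
      by_contra hc
      exact (F3 y _ hy2 hc (adj_add_ue y j)).2.2.1 hy1
    exact ⟨h1, hπ1 y hy2 h1⟩
  have hleft : ∀ y ∈ rt Wc j, π y ∈ Wc ∧ π y - ue j ∉ Wc ∧ par (π y) = b := by
    intro y hy
    obtain ⟨hy1, hy2⟩ := (mrt y).1 hy
    have h1 := hπ3 y hy1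
    have h2 : π y - ue j ∉ Wc := by
      intro hc
      have h3 : π y - ue j + ue j ∈ Wc := by simpa using h1
      have h4 := hπ1 _ hc h3
      rw [sub_add_cancel] at h4
      have h5 := π.injective h4
      rw [h5] at h3
      exact hy2 h3
    exact ⟨h1, h2, (F3 _ _ h1 h2 (adj_sub_ue _ j)).2.1⟩
  set I' : Finset (S d) := (I \ Wc) ∪ ((I ∩ Wc) ∪ (rt Wc j \ A)).image π with hI'
  have hcard : I'.card = I.card + (rt Wc j \ A).card := by
    have hd1 : Disjoint (I \ Wc) (((I ∩ Wc) ∪ (rt Wc j \ A)).image π) := by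
      rw [Finset.disjoint_left]
      intro z hz hz2
      obtain ⟨y, hy, rfl⟩ := Finset.mem_image.1 hz2
      have h1 : y ∈ Wc := by
        rcases Finset.mem_union.1 hy with h | h
        · exact (Finset.mem_inter.1 h).2
        · exact ((mrt y).1 (Finset.mem_sdiff.1 h).1).1
      exact (Finset.mem_sdiff.1 hz).2 (hπ3 y h1)
    have hd2 : Disjoint (I ∩ Wc) (rt Wc j \ A) := by
      rw [Finset.disjoint_left]
      intro z hz hz2
      exact hrt z (Finset.mem_sdiff.1 hz2).1 (Finset.mem_inter.1 hz).1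
    rw [hI', Finset.card_union_of_disjoint hd1, Finset.card_image_of_injective _ π.injective,
      Finset.card_union_of_disjoint hd2]
    have := Finset.card_sdiff_add_card_inter I Wc
    omega
  have mI' : ∀ z, z ∈ I' → (z ∈ I ∧ z ∉ Wc) ∨ (∃ y ∈ I, y ∈ Wc ∧ z ∈ Wc ∧ π y = z ∧
      z = y + ue j) ∨ (∃ y ∈ rt Wc j, y ∉ A ∧ π y = z) := by
    intro z hz
    rcases Finset.mem_union.1 hz with h | h
    · exact Or.inl (Finset.mem_sdiff.1 h)
    · obtain ⟨y, hy, rfl⟩ := Finset.mem_image.1 h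
      rcases Finset.mem_union.1 hy with h | h
      · have h1 := hIW y h
        exact Or.inr (Or.inl ⟨y, (Finset.mem_inter.1 h).1, (Finset.mem_inter.1 h).2,
          by rw [h1.2]; exact h1.1, rfl, h1.2⟩)
      · exact Or.inr (Or.inr ⟨y, (Finset.mem_sdiff.1 h).1, (Finset.mem_sdiff.1 h).2, rfl⟩)
  have hInd' : Indep I' := by
    -- no element of `I \ Wc` is adjacent to an element of `Wc`
    have hac : ∀ z w, z ∈ I → z ∉ Wc → w ∈ Wc → ¬ adj w z := fun z w hz hzW hw hwz =>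
      (F3 w z hw hzW hwz).2.2.2 hz
    have hbc : ∀ y y', y ∈ I → y ∈ Wc → y' ∈ rt Wc j → ¬ adj (π y') (y + ue j) := by
      intro y y' hy hyW hy' hadj
      have h1 := hleft y' hy'
      have h2 := adj_sub_right hadj
      exact (F3 y (π y' - ue j) hyW h1.2.1 (adj_symm h2)).2.2.1 hy
    intro x hx z hz hxz
    rcases mI' x hx with ⟨hx1, hx2⟩ | ⟨y, hy1, hy2, hxW, hπy, rfl⟩ | ⟨y, hy1, hy2, rfl⟩
    · rcases mI' z hz with ⟨hz1, hz2⟩ | ⟨y', hy1', hy2', hzW, hπy', rfl⟩ | ⟨y', hy1', hy2', rfl⟩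
      · exact hInd x hx1 z hz1 hxz
      · exact hac x _ hx1 hx2 hzW (adj_symm hxz)
      · exact hac x _ hx1 hx2 (hleft y' hy1').1 (adj_symm hxz)
    · rcases mI' z hz with ⟨hz1, hz2⟩ | ⟨y', hy1', hy2', hzW, hπy', rfl⟩ | ⟨y', hy1', hy2', rfl⟩
      · exact hac z _ hz1 hz2 hxW hxz
      · exact hInd y hy1 y' hy1' (adj_add_right hxz)
      · exact hbc y y' hy1 hy2 hy1' (adj_symm hxz)
    · rcases mI' z hz with ⟨hz1, hz2⟩ | ⟨y', hy1', hy2', hzW, hπy', rfl⟩ | ⟨y', hy1', hy2', rfl⟩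
      · exact hac z _ hz1 hz2 (hleft y hy1).1 hxz
      · exact hbc y' y hy1' hy2' hy1 hxz
      · exact (hparadj _ _ hxz).1 (hleft y hy1).2.2 (hleft y' hy1').2.2
  have hsub : I' ⊆ bd Lam b (((A.image π : Finset (S d)) : Set (S d))ᶜ) := by
    intro z hz
    rw [mem_bd]
    have hnotA : ∀ y, y ∉ A → π y ∉ A.image π := by
      intro y hy h
      obtain ⟨a, ha, h1⟩ := Finset.mem_image.1 h
      exact hy (π.injective h1 ▸ ha)
    rcases mI' z hz with ⟨hz1, hz2⟩ | ⟨y, hy1, hy2, hzW, hπy, hzy⟩ | ⟨y, hy1, hy2, rfl⟩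
    · have h1 := mem_bd.1 (hIH hz1)
      refine ⟨h1.1, h1.2.1, ?_⟩
      have h2 : z ∉ A := by simpa using h1.2.2
      have h3 := hnotA z h2
      rw [hπ2 z hz2] at h3
      exact fun h => h3 (Finset.mem_coe.1 h)
    · refine ⟨F4 hzW, ?_, ?_⟩
      · by_cases hp : par z = b
        · exact Or.inl hp
        · right
          intro w hw
          apply F4
          by_contra hc
          exact hp (F3 z w hzW hc (mem_nb.1 hw)).2.1
      · have h1 := mem_bd.1 (hIH hy1)
        have h2 : y ∉ A := by simpa using h1.2.2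
        have h3 := hnotA y h2
        rw [hπy] at h3
        exact fun h => h3 (Finset.mem_coe.1 h)
    · refine ⟨F4 (hleft y hy1).1, Or.inl (hleft y hy1).2.2, ?_⟩
      have h3 := hnotA y hy2
      exact fun h => h3 (Finset.mem_coe.1 h)
  have h5 := indep_card_le hsub hInd'
  rw [hcard, hI.2.2] at h5
  exact h5

end Pool.Agent.W19.TRShift
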