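import Pool.Agent.W845.TR.Base
import Pool.Agent.W845.TR.Stmts

/-!
# Covering walk and visiting order
-/

set_option autoImplicit false

namespace Pool.Agent.W19.TRWalk

open Pool.Agent.W845.TR

theorem exit_aux {α : Type} {rel : α → α → Prop} {T : Finset α} {e x : α}
    (h : Relation.ReflTransGen rel e x) (he : e ∈ T) (hx : x ∉ T) :
    ∃ y z, rel y z ∧ y ∈ T ∧ z ∉ T := by
  induction h with
  | refl => exact absurd he hx
  | @tail b c h1 h2 ih =>
    by_cases hb : b ∈ T
    · exact ⟨b, c, h2, hb, hx⟩
    · exact ih hb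

theorem walk : St_WALK := by
  intro α _ r E e0 he0 hsymm hconn
  have key : ∀ m : ℕ, m + 1 ≤ E.card → ∃ T : Finset α, T ⊆ E ∧ T.card = m + 1 ∧ e0 ∈ T ∧
      ∃ l : List α, (e0 :: l).IsChain r ∧ l.length ≤ 2 * m ∧ ∀ x ∈ T, x ∈ e0 :: l := by
    intro m
    induction m with
    | zero =>
      intro _
      refine ⟨{e0}, by simpa using he0, by simp, by simp, [], by simp, by simp, ?_⟩
      intro x hx
      simpa using hx
    | succ m ih =>
      intro hm
      obtain ⟨T, hTE, hTc, he0T, l, hl1, hl2, hl3⟩ := ih (by omega)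
      have hex : ∃ x ∈ E, x ∉ T := by
        by_contra hc
        push Not at hc
        have := Finset.card_le_card (fun x hx => hc x hx : E ⊆ T)
        omega
      obtain ⟨x, hxE, hxT⟩ := hex
      obtain ⟨y, z, ⟨hyE, hzE, hyz⟩, hyT, hzT⟩ := exit_aux (hconn x hxE) he0T hxT
      refine ⟨insert z T, Finset.insert_subset hzE hTE, ?_, Finset.mem_insert_of_mem he0T, ?_⟩
      · rw [Finset.card_insert_of_notMem hzT, hTc]
      · have hyl := hl3 y hyT
        obtain ⟨s, t, hst⟩ := List.append_of_mem hyl
        have hchain : (s ++ y :: z :: y :: t).IsChain r := by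
          have h1 := hl1
          rw [hst, List.isChain_split] at h1
          rw [List.isChain_split]
          refine ⟨h1.1, ?_⟩
          rw [List.isChain_cons_cons, List.isChain_cons_cons]
          exact ⟨hyz, hsymm _ _ hyz, h1.2⟩
        have hmem : ∀ w ∈ e0 :: l, w ∈ s ++ y :: z :: y :: t := by
          intro w hw
          rw [hst] at hw
          simp only [List.mem_append, List.mem_cons] at hw ⊢
          tauto
        have hmz : z ∈ s ++ y :: z :: y :: t := by simp
        have hlen : (s ++ y :: z :: y :: t).length = l.length + 3 := by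
          have h1 := congrArg List.length hst
          simp only [List.length_append, List.length_cons] at h1 ⊢
          omega
        have hhead : ∃ l', s ++ y :: z :: y :: t = e0 :: l' := by
          cases s with
          | nil =>
            simp only [List.nil_append, List.cons.injEq] at hst
            exact ⟨z :: y :: t, by simp [hst.1]⟩
          | cons a s' =>
            simp only [List.cons_append, List.cons.injEq] at hst
            exact ⟨s' ++ y :: z :: y :: t, by simp [hst.1]⟩
        obtain ⟨l', hl'⟩ := hhead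
        rw [hl'] at hchain hmem hmz hlen
        refine ⟨l', hchain, ?_, ?_⟩
        · simp only [List.length_cons] at hlen
          omega
        · intro w hw
          rcases Finset.mem_insert.1 hw with e | hw'
          · rw [e]; exact hmz
          · exact hmem w (hl3 w hw')
  have hpos : 0 < E.card := Finset.card_pos.2 ⟨e0, he0⟩
  obtain ⟨T, hTE, hTc, he0T, l, hl1, hl2, hl3⟩ := key (E.card - 1) (by omega)
  have hTeq : T = E := Finset.eq_of_subset_of_card_le hTE (by omega)
  exact ⟨l, hl1, by omega, fun x hx => hl3 x (hTeq ▸ hx)⟩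

variable {d : ℕ}

theorem sqAdj_symm {e f : S d × Fin d} (h : sqAdj e f) : sqAdj f e := by
  obtain ⟨x, i, j, hij, h1, h2⟩ := h
  exact ⟨x, i, j, hij, h2, h1⟩

theorem sq_base {x : S d} {i j : Fin d} {e : S d × Fin d} (h : e ∈ Pool.Agent.W845.TR.sq x i j) :
    l1 x e.1 ≤ 1 := by
  unfold Pool.Agent.W845.TR.sq at h
  simp only [Finset.mem_insert, Finset.mem_singleton] at h
  rcases h with rfl | rfl | rfl | rfl
  · simp [l1_self]
  · exact (l1_add_ue x j).le
  · simp [l1_self]
  · exact (l1_add_ue x i).le

theorem sqAdj_l1 {e f : S d × Fin d} (h : sqAdj e f) : l1 e.1 f.1 ≤ 2 := by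
  obtain ⟨x, i, j, hij, h1, h2⟩ := h
  have h3 := sq_base h1
  have h4 := sq_base h2
  have h5 := l1_tri e.1 x f.1
  rw [l1_comm e.1 x] at h5
  omega

theorem chain_l1 {L : List (S d × Fin d)} (hL : L.IsChain sqAdj) (e0 : S d × Fin d) (s n : ℕ)
    (h : s + n < L.length) : l1 (L.getD s e0).1 (L.getD (s + n) e0).1 ≤ 2 * n := by
  induction n with
  | zero => simp [l1_self]
  | succ n ih =>
    have h1 := ih (by omega)
    have h2 := List.isChain_iff_getElem.1 hL (s + n) (by omega)
    have h3 := sqAdj_l1 h2
    have e1 : L.getD (s + n) e0 = L[s + n] := List.getD_eq_getElem L e0 (by omega)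
    have e2 : L.getD (s + (n + 1)) e0 = L[s + n + 1] := List.getD_eq_getElem L e0 (by omega)
    rw [e1] at h1
    rw [e2]
    have h4 := l1_tri (L.getD s e0).1 L[s + n].1 L[s + n + 1].1
    push_cast
    omega

theorem l1_scale (c : ℤ) (hc : 0 ≤ c) (x y : S d) :
    l1 (fun i => c * x i) (fun i => c * y i) = c * l1 x y := by
  unfold l1
  rw [Finset.mul_sum]
  refine Finset.sum_congr rfl fun i _ => ?_
  rw [← mul_sub, abs_mul, abs_of_nonneg hc]

theorem ord : St_WALK → St_ORD := by
  classical
  intro hwalk d k E F e0 he0 hconn hF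
  obtain ⟨l0, hc, hlen, hmem⟩ := hwalk (S d × Fin d) sqAdj E e0 he0
    (fun _ _ h => sqAdj_symm h) (fun x hx => hconn e0 he0 x hx)
  set L : List (S d × Fin d) := e0 :: l0 with hL
  have hLlen : L.length = l0.length + 1 := by simp [hL]
  have hg : ∀ e : S d × Fin d, ∃ t : ℕ, e ∈ F → t < L.length ∧
      l1 (L.getD t e0).1 (fun i => 2 ^ k * e.1 i) ≤ 2 * d * 2 ^ k := by
    intro e
    by_cases he : e ∈ F
    · obtain ⟨f, hf, h1⟩ := hF e he
      obtain ⟨t, ht, h2⟩ := List.getElem_of_mem (hmem f hf)
      refine ⟨t, fun _ => ⟨ht, ?_⟩⟩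
      rw [List.getD_eq_getElem L e0 ht, h2]
      exact h1
    · exact ⟨0, fun h => absurd h he⟩
  choose pos hpos using hg
  have key : ∀ n : ℕ, ∀ F' : Finset (S d × Fin d), F' ⊆ F → F'.card = n → ∀ s : ℕ,
      s ≤ 2 * E.card → (∀ e ∈ F', s ≤ pos e) → ∀ z : S d,
      l1 (fun i => 2 ^ k * z i) (L.getD s e0).1 ≤ 2 * d * 2 ^ k →
      ∃ l : List (S d × Fin d), l.toFinset = F' ∧ l.length = F'.card ∧
        2 ^ k * len z l ≤ 2 * (2 * E.card - s) + 4 * d * 2 ^ k * F'.card := by
    intro n
    induction n with
    | zero =>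
      intro F' _ hcard s hs _ z _
      rw [Finset.card_eq_zero] at hcard
      subst hcard
      refine ⟨[], by simp, by simp, ?_⟩
      have : (s : ℤ) ≤ 2 * E.card := by exact_mod_cast hs
      simp only [len, mul_zero, Finset.card_empty, Nat.cast_zero, add_zero]
      omega
    | succ n ih =>
      intro F' hF' hcard s hs hps z hz
      have hne : F'.Nonempty := Finset.card_pos.1 (by omega)
      obtain ⟨e, heF, hmin⟩ := Finset.exists_min_image F' pos hne
      have hp := hpos e (hF' heF)
      have hse := hps e heF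
      have hcE : (F'.erase e).card = n := by rw [Finset.card_erase_of_mem heF]; omega
      obtain ⟨l, h1, h2, h3⟩ := ih (F'.erase e) ((Finset.erase_subset _ _).trans hF') hcE (pos e)
        (by omega) (fun f hf => hmin f (Finset.mem_of_mem_erase hf)) e.1
        (by rw [l1_comm]; exact hp.2)
      refine ⟨e :: l, ?_, ?_, ?_⟩
      · rw [List.toFinset_cons, h1, Finset.insert_erase heF]
      · rw [List.length_cons, h2, Finset.card_erase_of_mem heF]; omega
      · have h4 := chain_l1 hc e0 s (pos e - s) (by omega)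
        have e1 : s + (pos e - s) = pos e := by omega
        rw [e1] at h4
        have e2 : ((pos e - s : ℕ) : ℤ) = (pos e : ℤ) - s := by omega
        rw [e2] at h4
        have h5 := l1_tri (fun i => 2 ^ k * z i) (L.getD s e0).1 (fun i => 2 ^ k * e.1 i)
        have h6 := l1_tri (L.getD s e0).1 (L.getD (pos e) e0).1 (fun i => 2 ^ k * e.1 i)
        have h7 := l1_scale (2 ^ k) (by positivity) z e.1
        have h8 := hp.2
        rw [hcE] at h3
        rw [hcard]
        simp only [len, mul_add]
        rw [← h7]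
        push_cast
        have h9 : (4 : ℤ) * d * 2 ^ k * (n + 1) = 4 * d * 2 ^ k * n + 4 * d * 2 ^ k := by ring
        linarith
  obtain ⟨l, h1, h2, h3⟩ := key F.card F (Finset.Subset.refl _) rfl 0 (by omega)
    (fun _ _ => Nat.zero_le _) (cidx k e0.1) (by
      have e1 : L.getD 0 e0 = e0 := by simp [hL]
      rw [e1]
      unfold l1 cidx
      have h : ∀ i ∈ (Finset.univ : Finset (Fin d)),
          |2 ^ k * (e0.1 i / 2 ^ k) - e0.1 i| ≤ 2 ^ k := by
        intro i _
        have hk : (0 : ℤ) < 2 ^ k := by positivity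
        have h1 := Int.mul_ediv_add_emod (e0.1 i) (2 ^ k)
        have h2 := Int.emod_nonneg (e0.1 i) hk.ne'
        have h3 := Int.emod_lt_of_pos (e0.1 i) hk
        rw [abs_le]
        constructor <;> linarith
      refine (Finset.sum_le_sum h).trans ?_
      simp only [Finset.sum_const, Finset.card_univ, Fintype.card_fin, nsmul_eq_mul]
      have : (0 : ℤ) ≤ d * 2 ^ k := by positivity
      linarith)
  refine ⟨l, h1, h2, ?_⟩
  simp only [Nat.cast_zero, sub_zero] at h3
  linarith

end Pool.Agent.W19.TRWalk
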